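import Pool.Agent.Helper8.FT.Defs
import Pool.Agent.Helper8.FT.Signs
import Pool.Agent.Helper21.DS.CountZero

set_option autoImplicit false

/-!
# Exceptional answers of zero tests are rare
-/

namespace Pool.Agent.Helper8.FT

open Finset
open Pool.Agent.Helper22.ETModel Pool.Agent.Helper22.TSModel Pool.Agent.Helper22.EP
open Pool.Agent.Helper23.SP (pre sg)
open Pool.Agent.Helper8.ZT Pool.Agent.Helper21.DS

variable {m n k b Z M N d D W R K : ℕ} [NeZero b]

/-- On a line there are few different vectors of signs. -/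
lemma line_signs (h : 3 * m ≤ n) (F : Fin K → ℝ × (Fin n × Fin n → ℝ)) (L Y Q : ℕ)
    (dg : E m → Fin k → Fin b) (z : E m → Bool × Fin Z) (u : Fin k → (Fin k → Fin b) → Fin M)
    (tiny : Fin (N + 1) → E m → ℤ) (p q : E m → ℤ)
    (ht : ∀ c e, tiny c e = p e + q e * ((c : ℕ) : ℤ)) :
    ∃ S : Finset (Fin K → SignType), S.card ≤ 2 * K + 1 ∧
      ∀ (c : Fin (N + 1)) (ν : E m → Fin (N + 1)),
        sgv h F L Y Q dg (z, u, ν) (tiny c) ∈ S := by
  obtain ⟨S, hS, hmem⟩ := signs_card (Q := Fin K) N
    (fun i => (F i).1 + ∑ e, gam h (F i).2 e *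
      (vl L Y Q dg ((z, u, fun _ => 0) : Lam m k b Z M N) p e : ℝ))
    (fun i => ∑ e, gam h (F i).2 e * (q e : ℝ))
  refine ⟨S, hS.trans (by rw [Fintype.card_fin]), ?_⟩
  intro c ν
  convert hmem c using 1
  funext i
  unfold sgv
  congr 1
  rw [add_assoc, sum_mul, ← sum_add_distrib]
  congr 1
  apply sum_congr rfl
  intro e _
  unfold vl
  rw [ht]
  push_cast
  ring

open Classical in
/-- The polynomial in the query number `t`, when the answers to all sign queries are given by `a`
(zero for sign queries). -/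
noncomputable def phi (A : Alg n D W R (DenseQ n d) SignType) (h : 3 * m ≤ n)
    (ρ : Fin R → Bool) (F : Fin K → ℝ × (Fin n × Fin n → ℝ)) (t : ℕ) (a : Fin K → SignType)
    (y : E m → ℝ) : ℝ :=
  match A.ask (flagOf h) ρ t (fstA A h ρ F a t) with
  | .sign _ _ => 0
  | .zero f _ => pev h f y

lemma lineOK_zero {ι : Type} (d : ℕ) : LineOK (fun _ : ι → ℝ => (0 : ℝ)) d :=
  fun _ _ => Or.inl fun _ => rfl

lemma lineOK_phi (A : Alg n D W R (DenseQ n d) SignType) (h : 3 * m ≤ n)
    (ρ : Fin R → Bool) (F : Fin K → ℝ × (Fin n × Fin n → ℝ)) (t : ℕ) (a : Fin K → SignType) :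
    LineOK (phi A h ρ F t a) d := by
  have key : ∀ Q : DenseQ n d, LineOK (fun y : E m → ℝ =>
      (match Q with
      | .sign _ _ => (0 : ℝ)
      | .zero f _ => pev h f y)) d := by
    intro Q
    cases Q with
    | sign c a => exact lineOK_zero d
    | zero f hf => exact Pool.Agent.Helper50.ZT.lineOK_pev h f hf
  exact key _

lemma phi_of_zero (A : Alg n D W R (DenseQ n d) SignType) (h : 3 * m ≤ n)
    (ρ : Fin R → Bool) (F : Fin K → ℝ × (Fin n × Fin n → ℝ)) (t : ℕ) (a : Fin K → SignType)
    {f : MvPolynomial (Fin n × Fin n) ℝ} {hf : f.totalDegree ≤ d}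
    (hq : A.ask (flagOf h) ρ t (fstA A h ρ F a t) = .zero f hf) (y : E m → ℝ) :
    phi A h ρ F t a y = pev h f y := by
  unfold phi
  rw [hq]

lemma card_E (m : ℕ) : Fintype.card (E m) = 3 * m ^ 2 := by
  simp only [E, Fintype.card_prod, Fintype.card_fin]
  ring

open Classical in
/-- Exceptional answers are rare in the basic instance. -/
theorem card_badN_le (A : Alg n D W R (DenseQ n d) SignType) (h : 3 * m ≤ n)
    (F : Fin K → ℝ × (Fin n × Fin n → ℝ)) (L Y Q : ℕ) (ρ : Fin R → Bool)
    (dg : E m → Fin k → Fin b) (z : E m → Bool × Fin Z)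
    (u : Fin k → (Fin k → Fin b) → Fin M) :
    (univ.filter (fun ν : E m → Fin (N + 1) =>
      badN A h F L Y Q ρ dg (z, u, ν))).card * (N + 1) ≤
      D * (3 * m ^ 2 * ((2 * K + 1) * d) * Fintype.card (E m → Fin (N + 1))) := by
  have hsub : univ.filter (fun ν : E m → Fin (N + 1) => badN A h F L Y Q ρ dg (z, u, ν)) ⊆
      (range D).biUnion (fun t => univ.filter (fun ν : E m → Fin (N + 1) =>
        (∃ y, phi A h ρ F t (sgv h F L Y Q dg (z, u, ν) (tinyN ν)) y ≠ 0) ∧
        phi A h ρ F t (sgv h F L Y Q dg (z, u, ν) (tinyN ν))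
          (fun e => countZeroBase L Y Q dg z u e + 2 * ((ν e : ℕ) : ℝ)) = 0)) := by
    intro ν hν
    obtain ⟨t, ht, f, hf, hq, hex, hz⟩ := (mem_filter.1 hν).2
    rw [mem_biUnion]
    refine ⟨t, mem_range.2 ht, mem_filter.2 ⟨mem_univ _, ?_, ?_⟩⟩
    · obtain ⟨y, hy⟩ := hex
      exact ⟨y, by rw [phi_of_zero A h ρ F t _ hq]; exact hy⟩
    · rw [phi_of_zero A h ρ F t _ hq, ← hz]
      congr 1
      funext e
      rw [countZero_vl]
  refine (Nat.mul_le_mul_right _ ((card_le_card hsub).trans card_biUnion_le)).trans ?_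
  rw [sum_mul]
  refine (sum_le_card_nsmul _ _ _ ?_).trans (by rw [card_range, smul_eq_mul])
  intro t _
  rw [← card_E m]
  apply adaptive_sz N (2 * K + 1) d
    (fun ν => sgv h F L Y Q dg (z, u, ν) (tinyN ν)) _ (phi A h ρ F t) (lineOK_phi A h ρ F t)
    (countZeroBase L Y Q dg z u)
  · intro ν hν
    exact (mem_filter.1 hν).2
  · intro j ν
    obtain ⟨S, hS, hmem⟩ := line_signs (N := N) h F L Y Q dg z u
      (fun c => tinyN (Function.update ν j c))
      (fun e => if e = j then (if e.1 = 0 then 1 else 0) else tinyN ν e)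
      (fun e => if e = j then 2 else 0) (by
        intro c e
        by_cases he : e = j
        · subst he
          unfold tinyN
          rw [Function.update_self, if_pos rfl, if_pos rfl]
          ring
        · unfold tinyN
          rw [Function.update_of_ne he, if_neg he, if_neg he]
          ring)
    exact ⟨S, hS, fun c => hmem c _⟩

open Classical in
/-- Exceptional answers are rare in the planted instance. -/
theorem card_badQ_le (A : Alg n D W R (DenseQ n d) SignType) (h : 3 * m ≤ n)
    (F : Fin K → ℝ × (Fin n × Fin n → ℝ)) (L Y Q : ℕ) (ρ : Fin R → Bool)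
    (dg : E m → Fin k → Fin b) (z : E m → Bool × Fin Z)
    (u : Fin k → (Fin k → Fin b) → Fin M) {e0 e1 : E m} (hne : e1 ≠ e0) :
    (univ.filter (fun ν : E m → Fin (N + 1) =>
      badQ A h F L Y Q ρ e0 e1 dg (z, u, ν))).card * (N + 1) ≤
      D * (3 * m ^ 2 * ((2 * K + 1) * d) * Fintype.card (E m → Fin (N + 1))) := by
  have hsub : univ.filter (fun ν : E m → Fin (N + 1) =>
      badQ A h F L Y Q ρ e0 e1 dg (z, u, ν)) ⊆
      (range D).biUnion (fun t => univ.filter (fun ν : E m → Fin (N + 1) =>
        (∃ y, (fun a y => phi A h ρ F t a (Function.update y e0 (y e1)))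
          (sgv h F L Y Q dg (z, u, ν) (tinyQ ν e0 e1)) y ≠ 0) ∧
        (fun a y => phi A h ρ F t a (Function.update y e0 (y e1)))
          (sgv h F L Y Q dg (z, u, ν) (tinyQ ν e0 e1))
          (fun e => countZeroBase L Y Q dg z u e + 2 * ((ν e : ℕ) : ℝ)) = 0)) := by
    intro ν hν
    obtain ⟨t, ht, f, hf, hq, hex, hz⟩ := (mem_filter.1 hν).2
    rw [mem_biUnion]
    refine ⟨t, mem_range.2 ht, mem_filter.2 ⟨mem_univ _, ?_, ?_⟩⟩
    · obtain ⟨y, hy⟩ := hex
      refine ⟨y, ?_⟩
      show phi A h ρ F t _ _ ≠ 0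
      rw [phi_of_zero A h ρ F t _ hq]; exact hy
    · show phi A h ρ F t _ _ = 0
      rw [phi_of_zero A h ρ F t _ hq, ← hz]
      congr 1
      simp only
      rw [← countZero_vl]
      congr 1
      funext e
      rw [countZero_vl]
  refine (Nat.mul_le_mul_right _ ((card_le_card hsub).trans card_biUnion_le)).trans ?_
  rw [sum_mul]
  refine (sum_le_card_nsmul _ _ _ ?_).trans (by rw [card_range, smul_eq_mul])
  intro t _
  rw [← card_E m]
  apply adaptive_sz N (2 * K + 1) d
    (fun ν => sgv h F L Y Q dg (z, u, ν) (tinyQ ν e0 e1)) _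
    (fun a y => phi A h ρ F t a (Function.update y e0 (y e1)))
    (fun a => Pool.Agent.Helper50.ZT.lineOK_update (lineOK_phi A h ρ F t a) e0 e1)
    (countZeroBase L Y Q dg z u)
  · intro ν hν
    exact (mem_filter.1 hν).2
  · intro j ν
    obtain ⟨S, hS, hmem⟩ := line_signs (N := N) h F L Y Q dg z u
      (fun c => tinyQ (Function.update ν j c) e0 e1)
      (fun e => if e = e0 then (if e1 = j then 0 else 2 * ((ν e1 : ℕ) : ℤ))
        else if e = j then (if e.1 = 0 then 1 else 0) else tinyN ν e)
      (fun e => if e = e0 then (if e1 = j then 2 else 0) else if e = j then 2 else 0) (by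
        intro c e
        by_cases he0 : e = e0
        · subst he0
          unfold tinyQ
          rw [if_pos rfl, if_pos rfl, if_pos rfl]
          by_cases he1 : e1 = j
          · subst he1
            rw [Function.update_self, if_pos rfl, if_pos rfl]
            ring
          · rw [Function.update_of_ne he1, if_neg he1, if_neg he1]
            ring
        · unfold tinyQ tinyN
          rw [if_neg he0, if_neg he0, if_neg he0]
          by_cases he : e = j
          · subst he
            rw [Function.update_self, if_pos rfl, if_pos rfl]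
            ring
          · rw [Function.update_of_ne he, if_neg he, if_neg he]
            ring)
    exact ⟨S, hS, fun c => hmem c _⟩

end Pool.Agent.Helper8.FT
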