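import Pool.Agent.Helper21.DS.Defs

set_option autoImplicit false

/-!
# Exact Triangle with few different sign queries and any memory

Definitions for project FT. The queries are those of project DS: signs of arbitrary real affine
forms in all the weights, and zero tests of arbitrary real polynomials. For fixed flags and random
bits at most `K` different sign queries occur.
-/

namespace Pool.Agent.Helper8.FT

open Finset
open Pool.Agent.Helper22.ETModel Pool.Agent.Helper22.TSModel Pool.Agent.Helper22.EP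
open Pool.Agent.Helper8.ZT Pool.Agent.Helper21.DS

variable {m n d D W R K : ℕ}

/-- For fixed flags and random bits all sign queries of `A` come from a list of `K` real affine
forms (a constant and the coefficients). -/
def FewSigns (A : Alg n D W R (DenseQ n d) SignType) (K : ℕ) : Prop :=
  ∀ (fl : Fin n → Fin n → Bool) (ρ : Fin R → Bool), ∃ F : Fin K → ℝ × (Fin n × Fin n → ℝ),
    ∀ t < D, ∀ v c a, A.ask fl ρ t v = .sign c a → ∃ i, F i = (c, a)

open Classical in
/-- The answer, when the answers to the sign queries on the list are given by `x`, and zero tests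
are answered as for generic weights. -/
noncomputable def ansA (h : 3 * m ≤ n) (F : Fin K → ℝ × (Fin n × Fin n → ℝ))
    (x : Fin K → SignType) : DenseQ n d → SignType
  | .sign c a => if hi : ∃ i, F i = (c, a) then x (Classical.choose hi) else 0
  | .zero f _ => if ∀ y, pev h f y = 0 then 0 else 1

/-- The state in the run with these answers. -/
noncomputable def fstA (A : Alg n D W R (DenseQ n d) SignType) (h : 3 * m ≤ n)
    (ρ : Fin R → Bool) (F : Fin K → ℝ × (Fin n × Fin n → ℝ)) (x : Fin K → SignType) : ℕ → Fin W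
  | 0 => A.init (flagOf h) ρ
  | t + 1 => A.next (flagOf h) ρ t (fstA A h ρ F x t)
      (ansA h F x (A.ask (flagOf h) ρ t (fstA A h ρ F x t)))

section inst

variable {k b Z M N : ℕ} [NeZero b]

/-- The signs of the forms on the list. -/
noncomputable def sgv (h : 3 * m ≤ n) (F : Fin K → ℝ × (Fin n × Fin n → ℝ)) (L Y Q : ℕ)
    (dg : E m → Fin k → Fin b) (lam : Lam m k b Z M N) (tiny : E m → ℤ) (i : Fin K) : SignType :=
  SignType.sign ((F i).1 + ∑ e, gam h (F i).2 e * (vl L Y Q dg lam tiny e : ℝ))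

/-- Some zero test of the run on the basic instance gives an exceptional answer. -/
def badN (A : Alg n D W R (DenseQ n d) SignType) (h : 3 * m ≤ n)
    (F : Fin K → ℝ × (Fin n × Fin n → ℝ)) (L Y Q : ℕ) (ρ : Fin R → Bool)
    (dg : E m → Fin k → Fin b) (lam : Lam m k b Z M N) : Prop :=
  ∃ t < D, ∃ f hf, A.ask (flagOf h) ρ t
      (fstA A h ρ F (sgv h F L Y Q dg lam (tinyN lam.2.2)) t) = .zero f hf ∧
    (∃ y, pev h f y ≠ 0) ∧ pev h f (fun e => (vl L Y Q dg lam (tinyN lam.2.2) e : ℝ)) = 0

/-- Some zero test of the run on the planted instance gives an exceptional answer. -/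
def badQ (A : Alg n D W R (DenseQ n d) SignType) (h : 3 * m ≤ n)
    (F : Fin K → ℝ × (Fin n × Fin n → ℝ)) (L Y Q : ℕ) (ρ : Fin R → Bool) (e0 e1 : E m)
    (dg : E m → Fin k → Fin b) (lam : Lam m k b Z M N) : Prop :=
  ∃ t < D, ∃ f hf, A.ask (flagOf h) ρ t
      (fstA A h ρ F (sgv h F L Y Q dg lam (tinyQ lam.2.2 e0 e1)) t) = .zero f hf ∧
    (∃ y : E m → ℝ, pev h f (Function.update y e0 (y e1)) ≠ 0) ∧
    pev h f (Function.update (fun e => (vl L Y Q dg lam (tinyN lam.2.2) e : ℝ)) e0
      (vl L Y Q dg lam (tinyN lam.2.2) e1 : ℝ)) = 0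

/-- Some query on the list is not good. -/
def badF (h : 3 * m ≤ n) (F : Fin K → ℝ × (Fin n × Fin n → ℝ)) (s L Y Q : ℕ)
    (dg : E m → Fin k → Fin b) (lam : Lam m k b Z M N) : Prop :=
  ∃ i, ¬ ((top (gam h (F i).2) lam.1).card ≤ s ∧
    GoodS L Y Q (F i).1 (gam h (F i).2) (top (gam h (F i).2) lam.1) dg lam)

open Classical in
/-- The background and digits for which something goes wrong. -/
noncomputable def BadFT (A : Alg n D W R (DenseQ n d) SignType) (h : 3 * m ≤ n)
    (F : Fin K → ℝ × (Fin n × Fin n → ℝ)) (s L Y Q : ℕ) (ρ : Fin R → Bool) :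
    Finset ((E m → Fin k → Fin b) × Lam m k b Z M N) :=
  univ.filter fun ω => badF h F s L Y Q ω.1 ω.2 ∨ badN A h F L Y Q ρ ω.1 ω.2 ∨
    ∃ i j l : Fin m, (ω.2.1 (0, i, j)).1 = false ∧ (ω.2.1 (1, j, l)).1 = false ∧
      ω.1 (1, j, l) = ω.1 (0, i, j) ∧ badQ A h F L Y Q ρ (0, i, j) (1, j, l) ω.1 ω.2

end inst

end Pool.Agent.Helper8.FT
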