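import Pool.Agent.Helper8.FT.Defs
import Pool.Agent.Helper21.DS.Run0

set_option autoImplicit false

/-!
# Real runs and ideal runs
-/

namespace Pool.Agent.Helper8.FT

open Finset
open Pool.Agent.Helper22.ETModel Pool.Agent.Helper22.TSModel Pool.Agent.Helper22.EP
open Pool.Agent.Helper23.SP (pre sg)
open Pool.Agent.Helper8.ZT Pool.Agent.Helper21.DS

variable {m n k b Z M N d D W R K : ℕ} [NeZero b]

lemma ansA_sign (h : 3 * m ≤ n) (F : Fin K → ℝ × (Fin n × Fin n → ℝ)) (L Y Q : ℕ)
    (dg : E m → Fin k → Fin b) (lam : Lam m k b Z M N) (tiny : E m → ℤ) (c : ℝ)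
    (a : Fin n × Fin n → ℝ) (hi : ∃ i, F i = (c, a)) :
    (denseFam n d).ans (.sign c a) (instOf h (wg L Y Q dg lam tiny)) =
      ansA (d := d) h F (sgv h F L Y Q dg lam tiny) (.sign c a) := by
  classical
  unfold ansA
  simp only
  rw [dif_pos hi]
  have h1 : F (Classical.choose hi) = (c, a) := Classical.choose_spec hi
  unfold sgv
  rw [h1]
  unfold denseFam
  simp only
  rw [form_inst]

/-- The run on the basic instance. -/
theorem run_base {s L Y Q : ℕ} (hs : 1 ≤ s) (hL : 16 * s * (N + 1) ≤ L)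
    (hY : 16 * s * M ≤ Y) (hQ : 24 * m ^ 2 * (L * Y ^ k) ≤ Q) (h : 3 * m ≤ n)
    (A : Alg n D W R (DenseQ n d) SignType) (ρ : Fin R → Bool)
    (F : Fin K → ℝ × (Fin n × Fin n → ℝ))
    (hF : ∀ t < D, ∀ v c a, A.ask (flagOf h) ρ t v = .sign c a → ∃ i, F i = (c, a))
    (dg : E m → Fin k → Fin b) (lam : Lam m k b Z M N) (hgood : ¬ badF h F s L Y Q dg lam)
    (hN : ¬ badN A h F L Y Q ρ dg lam) (t : ℕ) (ht : t ≤ D) :
    A.state (denseFam n d) (instOf h (wg L Y Q dg lam (tinyN lam.2.2))) ρ t =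
      (procD A h s L Y Q lam ρ).st dg 0 (A.init (flagOf h) ρ) t ∧
    fstA A h ρ F (sgv h F L Y Q dg lam (tinyN lam.2.2)) t =
      (procD A h s L Y Q lam ρ).st dg 0 (A.init (flagOf h) ρ) t := by
  classical
  induction t with
  | zero => exact ⟨rfl, rfl⟩
  | succ t ih =>
    obtain ⟨ih1, ih2⟩ := ih (by omega)
    have htD : t < D := by omega
    have hstep : (denseFam n d).ans (A.ask (flagOf h) ρ t
          ((procD A h s L Y Q lam ρ).st dg 0 (A.init (flagOf h) ρ) t))
          (instOf h (wg L Y Q dg lam (tinyN lam.2.2))) =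
        iansw h s L Y Q dg lam (A.ask (flagOf h) ρ t
          ((procD A h s L Y Q lam ρ).st dg 0 (A.init (flagOf h) ρ) t)) ∧
        ansA h F (sgv h F L Y Q dg lam (tinyN lam.2.2)) (A.ask (flagOf h) ρ t
          ((procD A h s L Y Q lam ρ).st dg 0 (A.init (flagOf h) ρ) t)) =
        iansw h s L Y Q dg lam (A.ask (flagOf h) ρ t
          ((procD A h s L Y Q lam ρ).st dg 0 (A.init (flagOf h) ρ) t)) := by
      rcases hq : A.ask (flagOf h) ρ t
        ((procD A h s L Y Q lam ρ).st dg 0 (A.init (flagOf h) ρ) t) with ⟨c, a⟩ | ⟨f, hf⟩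
      · have hi := hF t htD _ c a hq
        obtain ⟨i, hi'⟩ := hi
        have hG : GoodQ (d := d) h s L Y Q dg lam (.sign c a) := by
          have h3 : ¬ ¬ ((top (gam h (F i).2) lam.1).card ≤ s ∧
            GoodS L Y Q (F i).1 (gam h (F i).2) (top (gam h (F i).2) lam.1) dg lam) :=
            fun h4 => hgood ⟨i, h4⟩
          rw [not_not, hi'] at h3
          exact h3
        have h2 := ans_base hs hL hY hQ h dg lam (.sign c a) hG
        refine ⟨h2, ?_⟩
        rw [← ansA_sign (d := d) h F L Y Q dg lam (tinyN lam.2.2) c a ⟨i, hi'⟩]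
        exact h2
      · refine ⟨?_, rfl⟩
        unfold denseFam iansw
        simp only
        rw [poly_inst]
        by_cases h1 : ∀ y, pev h f y = 0
        · rw [if_pos (h1 _), if_pos h1]
        · rw [if_neg h1]
          push Not at h1
          rw [if_neg]
          intro h2
          exact hN ⟨t, htD, f, hf, by rw [ih2]; exact hq, h1, h2⟩
    rw [st_succ, Nat.zero_add]
    constructor
    · show A.next (flagOf h) ρ t _ ((denseFam n d).ans (A.ask (flagOf h) ρ t
        (A.state (denseFam n d) (instOf h (wg L Y Q dg lam (tinyN lam.2.2))) ρ t)) _) =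
        A.next (flagOf h) ρ t _ (iansw h s L Y Q dg lam (A.ask (flagOf h) ρ t _))
      rw [ih1, hstep.1]
    · show A.next (flagOf h) ρ t _ (ansA h F _ (A.ask (flagOf h) ρ t
        (fstA A h ρ F (sgv h F L Y Q dg lam (tinyN lam.2.2)) t))) =
        A.next (flagOf h) ρ t _ (iansw h s L Y Q dg lam (A.ask (flagOf h) ρ t _))
      rw [ih2, hstep.2]

/-- The run on the planted instance. -/
theorem run_plant {s L Y Q : ℕ} (hs : 1 ≤ s) (hL : 16 * s * (N + 1) ≤ L)
    (hY : 16 * s * M ≤ Y) (hQ : 24 * m ^ 2 * (L * Y ^ k) ≤ Q) (h : 3 * m ≤ n)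
    (A : Alg n D W R (DenseQ n d) SignType) (ρ : Fin R → Bool)
    (F : Fin K → ℝ × (Fin n × Fin n → ℝ))
    (hF : ∀ t < D, ∀ v c a, A.ask (flagOf h) ρ t v = .sign c a → ∃ i, F i = (c, a))
    (dg : E m → Fin k → Fin b) (lam : Lam m k b Z M N) (hgood : ¬ badF h F s L Y Q dg lam)
    (i j l : Fin m) (h0 : (lam.1 (0, i, j)).1 = false)
    (h1 : (lam.1 (1, j, l)).1 = false) (hd : dg (1, j, l) = dg (0, i, j))
    (hQb : ¬ badQ A h F L Y Q ρ (0, i, j) (1, j, l) dg lam)
    (hrev : ∀ t < D, ((0, i, j) : E m) ∉ mt (SQ h s lam.1 (A.ask (flagOf h) ρ t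
      ((procD A h s L Y Q lam ρ).st dg 0 (A.init (flagOf h) ρ) t))) dg k) (t : ℕ) (ht : t ≤ D) :
    A.state (denseFam n d)
      (instOf h (wg L Y Q dg lam (tinyQ lam.2.2 (0, i, j) (1, j, l)))) ρ t =
      (procD A h s L Y Q lam ρ).st dg 0 (A.init (flagOf h) ρ) t ∧
    fstA A h ρ F (sgv h F L Y Q dg lam (tinyQ lam.2.2 (0, i, j) (1, j, l))) t =
      (procD A h s L Y Q lam ρ).st dg 0 (A.init (flagOf h) ρ) t := by
  classical
  induction t with
  | zero => exact ⟨rfl, rfl⟩
  | succ t ih =>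
    obtain ⟨ih1, ih2⟩ := ih (by omega)
    have htD : t < D := by omega
    have hstep : (denseFam n d).ans (A.ask (flagOf h) ρ t
          ((procD A h s L Y Q lam ρ).st dg 0 (A.init (flagOf h) ρ) t))
          (instOf h (wg L Y Q dg lam (tinyQ lam.2.2 (0, i, j) (1, j, l)))) =
        iansw h s L Y Q dg lam (A.ask (flagOf h) ρ t
          ((procD A h s L Y Q lam ρ).st dg 0 (A.init (flagOf h) ρ) t)) ∧
        ansA h F (sgv h F L Y Q dg lam (tinyQ lam.2.2 (0, i, j) (1, j, l)))
          (A.ask (flagOf h) ρ t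
          ((procD A h s L Y Q lam ρ).st dg 0 (A.init (flagOf h) ρ) t)) =
        iansw h s L Y Q dg lam (A.ask (flagOf h) ρ t
          ((procD A h s L Y Q lam ρ).st dg 0 (A.init (flagOf h) ρ) t)) := by
      have hr := hrev t htD
      rcases hq : A.ask (flagOf h) ρ t
        ((procD A h s L Y Q lam ρ).st dg 0 (A.init (flagOf h) ρ) t) with ⟨c, a⟩ | ⟨f, hf⟩
      · rw [hq] at hr
        have hi := hF t htD _ c a hq
        obtain ⟨i', hi'⟩ := hi
        have hG : GoodQ (d := d) h s L Y Q dg lam (.sign c a) := by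
          have h3 : ¬ ¬ ((top (gam h (F i').2) lam.1).card ≤ s ∧
            GoodS L Y Q (F i').1 (gam h (F i').2) (top (gam h (F i').2) lam.1) dg lam) :=
            fun h4 => hgood ⟨i', h4⟩
          rw [not_not, hi'] at h3
          exact h3
        have h2 := ans_plant hs hL hY hQ h dg lam (.sign c a) hG i j l h0 h1 hd hr
        refine ⟨h2, ?_⟩
        rw [← ansA_sign (d := d) h F L Y Q dg lam _ c a ⟨i', hi'⟩]
        exact h2
      · rw [hq] at hr
        refine ⟨?_, rfl⟩
        unfold denseFam iansw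
        simp only
        rw [poly_inst]
        by_cases h2 : ∀ y, pev h f y = 0
        · rw [if_pos (h2 _), if_pos h2]
        · rw [if_neg h2, if_neg]
          intro h3
          rw [run0_vl L Y Q dg lam i j l h0 h1 hd] at h3
          have h4 : ((0, i, j), (1, j, l)) ∉ covp h f := by
            intro h5
            refine hr ?_
            have h6 : (0, i, j) ∈ cove h f :=
              Finset.mem_union_left _ (Finset.mem_image_of_mem Prod.fst h5)
            have h7 : (1, j, l) ∈ cove h f :=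
              Finset.mem_union_right _ (Finset.mem_image_of_mem Prod.snd h5)
            unfold Pool.Agent.Helper21.DS.mt
            rw [Finset.mem_filter]
            refine ⟨h6, Or.inr ⟨(1, j, l), h7, ?_, ?_⟩⟩
            · intro h8
              have h9 : (1 : Fin 3) = 0 := congrArg Prod.fst h8
              exact absurd h9 (by decide)
            · rw [hd]
          have h5 : ∃ y : E m → ℝ, pev h f (Function.update y (0, i, j) (y (1, j, l))) ≠ 0 := by
            by_contra hcon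
            push Not at hcon
            apply h4
            unfold covp
            rw [if_neg h2, mem_filter]
            refine ⟨mem_univ _, rfl, rfl, fun y hy => ?_⟩
            have h6 := hcon y
            have h7 : y (1, j, l) = y (0, i, j) := hy.symm
            rw [h7, Function.update_eq_self] at h6
            exact h6
          exact hQb ⟨t, htD, f, hf, by rw [ih2]; exact hq, h5, h3⟩
    rw [st_succ, Nat.zero_add]
    constructor
    · show A.next (flagOf h) ρ t _ ((denseFam n d).ans (A.ask (flagOf h) ρ t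
        (A.state (denseFam n d)
          (instOf h (wg L Y Q dg lam (tinyQ lam.2.2 (0, i, j) (1, j, l)))) ρ t)) _) =
        A.next (flagOf h) ρ t _ (iansw h s L Y Q dg lam (A.ask (flagOf h) ρ t _))
      rw [ih1, hstep.1]
    · show A.next (flagOf h) ρ t _ (ansA h F _ (A.ask (flagOf h) ρ t
        (fstA A h ρ F (sgv h F L Y Q dg lam (tinyQ lam.2.2 (0, i, j) (1, j, l))) t))) =
        A.next (flagOf h) ρ t _ (iansw h s L Y Q dg lam (A.ask (flagOf h) ρ t _))
      rw [ih2, hstep.2]

/-- If nothing goes wrong and the outputs on the basic and the planted instance differ, then the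
element `(0, i, j)` is revealed on level `k` by the ideal run. -/
theorem output_plantF {s L Y Q : ℕ} (hs : 1 ≤ s) (hL : 16 * s * (N + 1) ≤ L)
    (hY : 16 * s * M ≤ Y) (hQ : 24 * m ^ 2 * (L * Y ^ k) ≤ Q) (h : 3 * m ≤ n)
    (A : Alg n D W R (DenseQ n d) SignType) (ρ : Fin R → Bool)
    (F : Fin K → ℝ × (Fin n × Fin n → ℝ))
    (hF : ∀ t < D, ∀ v c a, A.ask (flagOf h) ρ t v = .sign c a → ∃ i, F i = (c, a))
    (ω : (E m → Fin k → Fin b) × Lam m k b Z M N) (hω : ω ∉ BadFT A h F s L Y Q ρ)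
    (i j l : Fin m) (h0 : (ω.2.1 (0, i, j)).1 = false)
    (h1 : (ω.2.1 (1, j, l)).1 = false) (hd : ω.1 (1, j, l) = ω.1 (0, i, j))
    (hne : A.output (denseFam n d) (instOf h (wg L Y Q ω.1 ω.2 (tinyN ω.2.2.2))) ρ ≠
      A.output (denseFam n d)
        (instOf h (wg L Y Q ω.1 ω.2 (tinyQ ω.2.2.2 (0, i, j) (1, j, l)))) ρ) :
    (0, i, j) ∈ (procD A h s L Y Q ω.2 ρ).rev ω.1 0 (A.init (flagOf h) ρ) D k := by
  classical
  by_contra hcon
  apply hne
  have hbF : ¬ badF h F s L Y Q ω.1 ω.2 :=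
    fun h2 => hω (mem_filter.2 ⟨mem_univ _, Or.inl h2⟩)
  have hbN : ¬ badN A h F L Y Q ρ ω.1 ω.2 :=
    fun h2 => hω (mem_filter.2 ⟨mem_univ _, Or.inr (Or.inl h2)⟩)
  have hbQ : ¬ badQ A h F L Y Q ρ (0, i, j) (1, j, l) ω.1 ω.2 :=
    fun h2 => hω (mem_filter.2 ⟨mem_univ _, Or.inr (Or.inr ⟨i, j, l, h0, h1, hd, h2⟩)⟩)
  have hrev : ∀ t < D, ((0, i, j) : E m) ∉ mt (SQ h s ω.2.1 (A.ask (flagOf h) ρ t
      ((procD A h s L Y Q ω.2 ρ).st ω.1 0 (A.init (flagOf h) ρ) t))) ω.1 k := by
    intro t ht hmem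
    apply hcon
    rw [mem_rev]
    refine ⟨t, ht, ?_⟩
    rw [Nat.zero_add]
    exact hmem
  have e1 := (run_base hs hL hY hQ h A ρ F hF ω.1 ω.2 hbF hbN D le_rfl).1
  have e2 := (run_plant hs hL hY hQ h A ρ F hF ω.1 ω.2 hbF i j l h0 h1 hd hbQ hrev D le_rfl).1
  show A.out (flagOf h) ρ _ = A.out (flagOf h) ρ _
  rw [e1, e2]

end Pool.Agent.Helper8.FT
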